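import Pool.Agent.Helper35_WHE.Extract
import Pool.Agent.Helper19_WH.NONBR
import Pool.Agent.Helper19_WH.SURF
import Pool.Agent.Helper19_WH.SURJ
import Pool.Agent.Helper19_WH.TRIV
import Pool.Agent.Helper19_WH.NPVb
import Pool.Agent.Helper19_WH.FINAL
import Pool.Agent.Helper20_WH.P3
import Pool.Agent.Helper20_WH.P4
import Pool.Agent.Helper20_WH.QBASIC
import Pool.Agent.Helper20_WH.QFOREST
import Pool.Agent.Helper20_WH.STRIPS
import Pool.Agent.Helper46_WH.SINGLE
import Pool.Agent.Helper46_WH.TYPE
import Pool.Agent.Helper65_WH.FREEFACE
import Pool.Agent.Helper65_WH.ONEV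
import Pool.Agent.Helper65_WH.SEMI
import Pool.Agent.Helper68_WH.CoreAsm
import Pool.Agent.Helper68_WH.TwoConn
import Pool.Agent.Helper71_WH.FoldPath
import Pool.Agent.Helper71_WH.Greedy
import Pool.Agent.Helper75_WH.CROSS
import Pool.Agent.Helper75_WH.FLIP
import Pool.Agent.Helper75_WH.MARKS
import Pool.Agent.Helper75_WH.POLYW
import Pool.Agent.Helper76_WH.LFCORE
import Pool.Agent.Helper76_WH.LFGEN
import Pool.Agent.Helper76_WH.SURFUNIV
import Pool.Agent.Helper76_WH.SPINE
import Pool.Agent.Helper82_WH.INIT
import Pool.Agent.Helper82_WH.TFILL
import Pool.Agent.Helper82_WH.FREEFAC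
import Pool.Agent.Helper86_WH.REMOVE
import Pool.Agent.Helper86_WH.VISIT
import Pool.Agent.Helper88_WH.COUNT
import Pool.Agent.Helper88_WH.MFOREST
import Pool.Agent.Helper88_WH.REDUCE
import Pool.Agent.Helper88_WH.RIMDATA
import Pool.Agent.Helper88_WH.SPLIT
import Pool.Agent.Helper92_WH.CHORDCON
import Pool.Agent.Helper92_WH.CHORDMAIN
import Pool.Agent.Helper92_WH.COORD
import Pool.Agent.Helper92_WH.NORM
import Pool.Agent.Helper97_WH.EXTEND
import Pool.Agent.Helper97_WH.GAUGE
import Pool.Agent.Helper97_WH.REC

/-!
# Assembly: Whitehead's problem is in NP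
-/

namespace Pool.Agent.Helper35_WH

theorem mNormS : NormStatement := norm extract perm cross flip

theorem mCoord : CoordStatement := coord singlePoly polyWord

theorem mChordCon : ChordConStatement := chordCon marks mCoord mNormS typeS

theorem mChordMain : ChordMainStatement := chordMain mChordCon

theorem mLFCore : LFCoreStatement := lfCore lfGen

theorem mTightFilling : TightFillingStatement := tightFilling mLFCore

theorem mFreeFactor : FreeFactorStatement := freeFactor nonBridge surj

theorem mVisit : VisitStatement := visit nonBridge (remove triv) modelForest surj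

theorem mTame : TameStatement :=
  tame (init triv) (semi freeFace mVisit) (oneVertex mLFCore surj) mTightFilling

theorem mTwoConn : TwoConnStatement := twoConn modelForest

theorem mP3 : P3Statement := p3 quadBasic mTwoConn rimData

theorem mP4 : P4Statement := p4 quadBasic mTwoConn

theorem mStrips : StripsStatement := strips quadBasic modelForest

theorem mQuadForest : QuadForestStatement := quadForest quadBasic

theorem mGauge : GaugeStatement := gauge extend

theorem mSurf : SurfStatement := surf extend potExists recS mGauge

theorem mSurfUniv : SurfUnivStatement :=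
  surfUniv quadBasic mStrips mP3 mP4 mQuadForest extend recS mGauge

theorem mSpine : SpineStatement :=
  spine mTame (count forestCard modelForest) quadBasic mStrips mP3 mQuadForest rimData mSurf
    mSurfUniv

theorem mCore : CoreStatement := coreFrom mSpine mChordMain mFreeFactor mTightFilling

theorem mReduce : ReduceStatement := reduce splitShort

theorem final : FinalStatement :=
  finalFrom (greedy mReduce) mFreeFactor mTightFilling mCore (foldPath lfGen splitShort) npStatement

end Pool.Agent.Helper35_WH
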